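import Pool.Agent.TH456.PW.Rows
import Pool.Agent.TH456.TM.Inst

/-!
# `t`, `3 ^ t`, `5 ^ t`, … satisfy no approximate algebraic relation for almost all `t` with `2 ^ t` an integer
-/

set_option autoImplicit false

namespace Pool.Agent.Results.MP_47cfca_nt.JointRelations

/-- The real numbers `2`, `b_1, …, b_m` are multiplicatively independent. -/
def Independent {m : ℕ} (b : Fin m → ℝ) : Prop :=
  ∀ (n : ℤ) (k : Fin m → ℤ), (2 : ℝ) ^ n * ∏ i, b i ^ k i = 1 → n = 0 ∧ k = 0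

/-- The integers `x` in `[N, 2N]` such that, for the real number `t` with `2 ^ t = x`, there are integers `c_(k,l,e)`
(`0 ≤ k ≤ d0`, `0 ≤ l ≤ d1`, `0 ≤ e_1, …, e_m ≤ d`), not all zero and of absolute value at most `N ^ A`, such that the sum of
the numbers `c_(k,l,e) (log 2) ^ k t ^ l (b_1 ^ t) ^ e_1 ⋯ (b_m ^ t) ^ e_m` has absolute value at most `N ^ (-B)`. -/
def Exceptional {m : ℕ} (b : Fin m → ℝ) (d0 d1 d N : ℕ) (A B : ℝ) : Set ℕ :=
  {x | N ≤ x ∧ x ≤ 2 * N ∧ ∃ t : ℝ, (2 : ℝ) ^ t = x ∧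
    ∃ c : Fin (d0 + 1) × Fin (d1 + 1) × (Fin m → Fin (d + 1)) → ℤ, c ≠ 0 ∧
      (∀ u, |(c u : ℝ)| ≤ (N : ℝ) ^ A) ∧
      |∑ u, (c u : ℝ) * (Real.log 2 ^ (u.1 : ℕ) * t ^ (u.2.1 : ℕ) * ∏ i, (b i ^ t) ^ (u.2.2 i : ℕ))| ≤ (N : ℝ) ^ (-B)}

open Pool.Agent.TH456.PW

/-- Let `b_1, …, b_m > 1` be real numbers (for instance `3, 5, 7, …`), `2, b_1, …, b_m` multiplicatively independent, `d0`,
`d1`, `d` natural numbers, `A ≥ 0` and `β > 1 - 1 / ((d0 + d1 + 1) (d1 + 1) (d + 1) ^ m + 1)`. There are `B`, `C` such that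
for every `N ≥ 1`, for all but at most `C N ^ β` of the integers `x` in `[N, 2N]`, with the real number `t` given by
`2 ^ t = x`: every nonzero polynomial with integer coefficients of absolute value at most `N ^ A` and of degrees at most
`d0`, `d1`, `d, …, d` in its variables has absolute value more than `N ^ (-B)` at the numbers
`log 2`, `t`, `b_1 ^ t, …, b_m ^ t`. -/
theorem result {m : ℕ} (b : Fin m → ℝ) (hb : ∀ i, 1 < b i) (hind : Independent b)
    (d0 d1 d : ℕ) (A β : ℝ) (hA : 0 ≤ A)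
    (hβ : 1 - 1 / (((d0 : ℝ) + d1 + 1) * (d1 + 1) * (d + 1) ^ m + 1) < β) :
    ∃ B C : ℝ, ∀ N : ℕ, 1 ≤ N → (Exceptional b d0 d1 d N A B).Finite ∧
      ((Exceptional b d0 d1 d N A B).ncard : ℝ) ≤ C * (N : ℝ) ^ β := by
  classical
  have hmeas := Pool.Agent.TH456.TM.measT_real_log 2 (by norm_num) (by norm_num)
  rw [show (((2 : ℚ) : ℝ)) = 2 by norm_num] at hmeas
  obtain ⟨B, C, hC, h⟩ := rows (Real.log 2) 2 b (goodConst hmeas) (by norm_num) hb
    (fun n k hk => (hind n k hk).2) (d0 + d1) d1 d A β hA (by push_cast; exact hβ)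
  refine ⟨B, C, fun N hN => ?_⟩
  have hfin : (Exceptional b d0 d1 d N A B).Finite :=
    (Set.finite_Icc N (2 * N)).subset fun _ hx => ⟨hx.1, hx.2.1⟩
  refine ⟨hfin, ?_⟩
  have hl2 : 0 < Real.log 2 := Real.log_pos (by norm_num)
  have hl21 : Real.log 2 ≤ 1 := by
    have := Real.log_two_lt_d9
    linarith
  have hsub : Exceptional b d0 d1 d N A B ⊆
      ExcM (Real.log 2) (φR (d := d) fun i => Real.log (b i) / Real.log 2) (d0 + d1) d1 N A B := by
    rintro x ⟨hx1, hx2, t, ht, c, hc0, hc, hs⟩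
    have hN1 : (1 : ℝ) ≤ N := by exact_mod_cast hN
    have hxp : (0 : ℝ) < x := by
      have : (N : ℝ) ≤ x := by exact_mod_cast hx1
      linarith
    have hlx : Real.log x = t * Real.log 2 := by
      rw [← ht, Real.log_rpow (by norm_num)]
    have hpow : ∀ i, (x : ℝ) ^ (Real.log (b i) / Real.log 2) = b i ^ t := by
      intro i
      rw [Real.rpow_def_of_pos hxp, Real.rpow_def_of_pos (by linarith [hb i]), hlx]
      congr 1
      field_simp
    -- the new coefficients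
    let c' : Fin (d0 + d1 + 1) × Fin (d1 + 1) × (Fin m → Fin (d + 1)) → ℤ := fun u =>
      if h : d1 ≤ (u.1 : ℕ) + (u.2.1 : ℕ) ∧ (u.1 : ℕ) + (u.2.1 : ℕ) - d1 ≤ d0 then
        c (⟨(u.1 : ℕ) + (u.2.1 : ℕ) - d1, by omega⟩, u.2.1, u.2.2) else 0
    let s : Fin (d0 + 1) × Fin (d1 + 1) × (Fin m → Fin (d + 1)) →
        Fin (d0 + d1 + 1) × Fin (d1 + 1) × (Fin m → Fin (d + 1)) := fun v =>
      (⟨(v.1 : ℕ) + d1 - (v.2.1 : ℕ), by omega⟩, v.2.1, v.2.2)
    have hcs : ∀ v, c' (s v) = c v := by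
      rintro ⟨⟨v0, h0⟩, ⟨l, hl⟩, e⟩
      have h1 : d1 ≤ v0 + d1 - l + l ∧ v0 + d1 - l + l - d1 ≤ d0 := by omega
      simp only [c', s]
      rw [dif_pos h1]
      congr 1
      refine Prod.ext (Fin.ext ?_) rfl
      simp only
      omega
    have hout : ∀ u, u ∉ s '' ((Finset.univ : Finset (Fin (d0 + 1) × Fin (d1 + 1) × (Fin m → Fin (d + 1)))) :
        Set (Fin (d0 + 1) × Fin (d1 + 1) × (Fin m → Fin (d + 1)))) → c' u = 0 := by
      rintro ⟨⟨k, hk⟩, ⟨l, hl⟩, e⟩ hu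
      simp only [c']
      split_ifs with h1
      · exfalso
        apply hu
        refine ⟨(⟨k + l - d1, by omega⟩, ⟨l, hl⟩, e), by simp, ?_⟩
        simp only [s]
        refine Prod.ext (Fin.ext ?_) rfl
        simp only
        omega
      · rfl
    have hsinj : Function.Injective s := by
      rintro ⟨⟨v0, h0⟩, ⟨l, hl⟩, e⟩ ⟨⟨v0', h0'⟩, ⟨l', hl'⟩, e'⟩ hh
      simp only [s, Prod.mk.injEq, Fin.mk.injEq] at hh
      obtain ⟨h1, h2, h3⟩ := hh
      subst h2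
      subst h3
      have : v0 = v0' := by omega
      subst this
      rfl
    refine ⟨hx1, hx2, c', ?_, ?_, ?_⟩
    · intro hcon
      apply hc0
      funext v
      rw [← hcs v, hcon]
      rfl
    · rintro ⟨⟨k, hk⟩, ⟨l, hl⟩, e⟩
      simp only [c']
      split_ifs with h1
      · exact hc _
      · simp only [Int.cast_zero, abs_zero]
        positivity
    · have hsum : ∑ v, (c v : ℝ) * (Real.log 2 ^ d1 * (Real.log 2 ^ (v.1 : ℕ) * t ^ (v.2.1 : ℕ) *
          ∏ i, (b i ^ t) ^ (v.2.2 i : ℕ))) =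
          ∑ u, (c' u : ℝ) * (Real.log 2 ^ (u.1 : ℕ) * Real.log x ^ (u.2.1 : ℕ) *
            (x : ℝ) ^ (φR (fun i => Real.log (b i) / Real.log 2) u.2.2)) := by
        refine Finset.sum_of_injOn s hsinj.injOn (fun _ _ => by simp) ?_ ?_
        · intro u _ hu
          rw [hout u hu, Int.cast_zero, zero_mul]
        · intro v _
          rw [hcs v, rpow_φR _ hxp]
          simp only [s, hpow]
          congr 1
          rw [hlx, mul_pow]
          have h2 : Real.log 2 ^ ((v.1 : ℕ) + d1 - (v.2.1 : ℕ)) * (Real.log 2) ^ (v.2.1 : ℕ) =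
              Real.log 2 ^ d1 * Real.log 2 ^ (v.1 : ℕ) := by
            rw [← pow_add, ← pow_add]
            congr 1
            have := v.2.1.isLt
            omega
          linear_combination (-(t ^ (v.2.1 : ℕ) * ∏ i, (b i ^ t) ^ (v.2.2 i : ℕ))) * h2
      rw [← hsum]
      have h3 : ∑ v, (c v : ℝ) * (Real.log 2 ^ d1 * (Real.log 2 ^ (v.1 : ℕ) * t ^ (v.2.1 : ℕ) *
          ∏ i, (b i ^ t) ^ (v.2.2 i : ℕ))) = Real.log 2 ^ d1 * ∑ v, (c v : ℝ) * (Real.log 2 ^ (v.1 : ℕ) *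
          t ^ (v.2.1 : ℕ) * ∏ i, (b i ^ t) ^ (v.2.2 i : ℕ)) := by
        rw [Finset.mul_sum]
        refine Finset.sum_congr rfl fun v _ => ?_
        ring
      rw [h3, abs_mul, abs_of_nonneg (by positivity)]
      calc Real.log 2 ^ d1 * |∑ v, (c v : ℝ) * (Real.log 2 ^ (v.1 : ℕ) *
          t ^ (v.2.1 : ℕ) * ∏ i, (b i ^ t) ^ (v.2.2 i : ℕ))| ≤ 1 * |∑ v, (c v : ℝ) * (Real.log 2 ^ (v.1 : ℕ) *
          t ^ (v.2.1 : ℕ) * ∏ i, (b i ^ t) ^ (v.2.2 i : ℕ))| := by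
            refine mul_le_mul_of_nonneg_right ?_ (abs_nonneg _)
            exact pow_le_one₀ hl2.le hl21
        _ ≤ (N : ℝ) ^ (-B) := by rw [one_mul]; exact hs
  have h3 := Set.ncard_le_ncard hsub (ExcM_fin _ _ _ _ _ _ _)
  calc ((Exceptional b d0 d1 d N A B).ncard : ℝ) ≤
      ((ExcM (Real.log 2) (φR (d := d) fun i => Real.log (b i) / Real.log 2) (d0 + d1) d1 N A B).ncard : ℝ) := by
        exact_mod_cast h3
    _ ≤ C * (N : ℝ) ^ β := h B le_rfl N hN

end Pool.Agent.Results.MP_47cfca_nt.JointRelations
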